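import Pool.Agent.K1H42.HP.Stm

/-!
# Pieces of helper42's project HP: many high points force a large family (`S_BIG`)
-/

set_option autoImplicit false

namespace Pool.Agent.K1H6.HP

open Module Finset
open Pool.Agent.K1H42.HP

section
variable {F V : Type} [Field F] [AddCommGroup V] [Module F V] [Finite V]

/-- double counting of pairs (point, member of the family) -/
lemma dcount (𝓕 : Finset (Submodule F V)) (v : Submodule F V → ℝ) :
    ∑ A ∈ 𝓕, ∑ P ∈ pts A, v P = ∑ P ∈ Gr F V 1, v P * dg 𝓕 P := by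
  classical
  have h1 : ∀ A : Submodule F V, ∑ P ∈ pts A, v P = ∑ P ∈ Gr F V 1, if P ≤ A then v P else 0 := by
    intro A
    unfold pts
    rw [Finset.sum_filter]
  simp only [h1]
  rw [Finset.sum_comm]
  refine Finset.sum_congr rfl fun P _ => ?_
  rw [← Finset.sum_filter, Finset.sum_const, nsmul_eq_mul, mul_comm]
  rfl

end

lemma br_pow_le (hN : S_NUM) {q : ℕ} (hq : 2 ≤ q) (m : ℕ) : br q m ≤ (q : ℝ) ^ m :=
  (hN q 2 1 hq le_rfl (by norm_num)).2.2.2.2.2.1 m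

theorem t_BIG (hN : S_NUM) (hT : S_TUP) : S_BIG := by
  intro F _ _ V _ _ _ q n k M u hq hn hnk hk hu hkM huk 𝓕 h𝓕 X hX hXc hXd
  classical
  have hq2 : 2 ≤ q := by rw [← hq]; exact Fintype.one_lt_card
  have hqR : (2 : ℝ) ≤ q := by exact_mod_cast hq2
  have hq0 : (0 : ℝ) < q := by linarith
  have hq1 : (1 : ℝ) ≤ q := by linarith
  have hkn : k < n := by omega
  obtain ⟨hDpos, -, hD3, hD4, -, -, -⟩ := hN q n k hq2 (by omega) hkn
  have hnk2 : n - k = k + M := by omega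
  set v : Submodule F V → ℝ := fun P => if P ∈ X then 1 else 0 with hv
  have hv0 : ∀ P, 0 ≤ v P := fun P => by simp only [hv]; split_ifs <;> norm_num
  have hv1 : ∀ P, v P ≤ 1 := fun P => by simp only [hv]; split_ifs <;> norm_num
  have hvsum : ∑ P ∈ Gr F V 1, v P = (q : ℝ) ^ k := by
    simp only [hv]
    rw [Finset.sum_ite_mem, Finset.inter_eq_right.mpr hX, Finset.sum_const, nsmul_eq_mul, mul_one,
      hXc]
    push_cast; ring
  have hu1 : (0 : ℝ) < (q : ℝ) ^ u := pow_pos hq0 u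
  set a : ℝ := 2 * (q : ℝ) ^ u with ha
  have hbr : 2 * br q 20 * 1 ≤ a := by
    have h1 := br_pow_le hN hq2 20
    have h2 : (q : ℝ) ^ 20 ≤ (q : ℝ) ^ u := pow_le_pow_right₀ hq1 hu
    rw [ha]; linarith
  set 𝓑 := 𝓕.filter (fun A => a ≤ ∑ P ∈ pts A, v P) with h𝓑
  have htup := hT F V q n k 20 v 1 a hq hn hkn.le (by omega) hv0 hv1 (by positivity) hbr 𝓑
    ((Finset.filter_subset _ _).trans h𝓕) (fun A hA => (Finset.mem_filter.mp hA).2)
  rw [hvsum] at htup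
  have ha2 : a / 2 = (q : ℝ) ^ u := by rw [ha]; ring
  rw [ha2] at htup
  -- numerics
  have h21 := hD3 1 21 (by norm_num) (by omega)
  have h12 := hD4 1 (by omega)
  rw [hnk2] at h21 h12
  have hD2 := hDpos 2
  have hD21 := hDpos 21
  have hB : ∑ A ∈ 𝓑, ∑ P ∈ pts A, v P ≤ (q : ℝ) ^ k * D q n k 2 / 4 := by
    set S := ∑ A ∈ 𝓑, ∑ P ∈ pts A, v P with hS
    -- multiply by q^(20 u) q^(20 (k+M))
    have e1 : ((q : ℝ) ^ u) ^ 20 * S * (q : ℝ) ^ (20 * (k + M)) ≤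
        ((q : ℝ) ^ k) ^ 21 * (2 * (q : ℝ) ^ (k + M) * D q n k 2) := by
      calc ((q : ℝ) ^ u) ^ 20 * S * (q : ℝ) ^ (20 * (k + M))
          ≤ (((q : ℝ) ^ k) ^ (20 + 1) * D q n k (20 + 1)) * (q : ℝ) ^ (20 * (k + M)) := by
            gcongr
        _ = ((q : ℝ) ^ k) ^ 21 * ((q : ℝ) ^ ((21 - 1) * (k + M)) * D q n k 21) := by
            norm_num; ring
        _ ≤ ((q : ℝ) ^ k) ^ 21 * D q n k 1 := by gcongr
        _ ≤ _ := by gcongr
    have e2 : ((q : ℝ) ^ k) ^ 21 * (2 * (q : ℝ) ^ (k + M) * D q n k 2) * 4 ≤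
        ((q : ℝ) ^ u) ^ 20 * (q : ℝ) ^ (20 * (k + M)) * ((q : ℝ) ^ k * D q n k 2) := by
      have e3 : (8 : ℝ) ≤ (q : ℝ) ^ 3 := by
        calc (8 : ℝ) = 2 ^ 3 := by norm_num
          _ ≤ _ := by gcongr
      have e4 : (q : ℝ) ^ (3 + 20 * k + (k + M)) ≤ (q : ℝ) ^ (20 * u + 20 * (k + M)) :=
        pow_le_pow_right₀ hq1 (by omega)
      have e5 : 8 * (q : ℝ) ^ (20 * k + (k + M)) ≤ (q : ℝ) ^ (20 * u + 20 * (k + M)) := by
        calc 8 * (q : ℝ) ^ (20 * k + (k + M)) ≤ (q : ℝ) ^ 3 * (q : ℝ) ^ (20 * k + (k + M)) := by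
              gcongr
          _ = (q : ℝ) ^ (3 + 20 * k + (k + M)) := by rw [← pow_add]; congr 1; ring
          _ ≤ _ := e4
      calc ((q : ℝ) ^ k) ^ 21 * (2 * (q : ℝ) ^ (k + M) * D q n k 2) * 4
          = (8 * (q : ℝ) ^ (20 * k + (k + M))) * ((q : ℝ) ^ k * D q n k 2) := by
            rw [pow_add]; ring
        _ ≤ (q : ℝ) ^ (20 * u + 20 * (k + M)) * ((q : ℝ) ^ k * D q n k 2) := by gcongr
        _ = _ := by rw [pow_add]; ring
    have e6 : (0 : ℝ) < ((q : ℝ) ^ u) ^ 20 * (q : ℝ) ^ (20 * (k + M)) := by positivity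
    have e7 : ((q : ℝ) ^ u) ^ 20 * (q : ℝ) ^ (20 * (k + M)) * (S * 4) ≤
        ((q : ℝ) ^ u) ^ 20 * (q : ℝ) ^ (20 * (k + M)) * ((q : ℝ) ^ k * D q n k 2) := by
      linarith
    have := le_of_mul_le_mul_left e7 e6
    linarith
  have hall : (q : ℝ) ^ k * D q n k 2 ≤ ∑ A ∈ 𝓕, ∑ P ∈ pts A, v P := by
    rw [dcount]
    calc (q : ℝ) ^ k * D q n k 2 = ∑ P ∈ X, D q n k 2 := by
          rw [Finset.sum_const, nsmul_eq_mul, hXc]; push_cast; ring
      _ ≤ ∑ P ∈ X, v P * dg 𝓕 P := by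
          refine Finset.sum_le_sum fun P hP => ?_
          have : v P = 1 := by simp only [hv]; rw [if_pos hP]
          rw [this, one_mul]
          exact (hXd P hP).le
      _ ≤ ∑ P ∈ Gr F V 1, v P * dg 𝓕 P := by
          refine Finset.sum_le_sum_of_subset_of_nonneg hX fun P _ _ => ?_
          exact mul_nonneg (hv0 P) (by unfold dg; positivity)
  have hsplit : ∑ A ∈ 𝓕, ∑ P ∈ pts A, v P ≤
      ∑ A ∈ 𝓑, ∑ P ∈ pts A, v P + a * 𝓕.card := by
    rw [← Finset.sum_filter_add_sum_filter_not 𝓕 (fun A => a ≤ ∑ P ∈ pts A, v P)]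
    have : ∑ A ∈ 𝓕.filter (fun A => ¬ a ≤ ∑ P ∈ pts A, v P), ∑ P ∈ pts A, v P ≤ a * 𝓕.card := by
      calc ∑ A ∈ 𝓕.filter (fun A => ¬ a ≤ ∑ P ∈ pts A, v P), ∑ P ∈ pts A, v P
          ≤ ∑ A ∈ 𝓕.filter (fun A => ¬ a ≤ ∑ P ∈ pts A, v P), a := by
            refine Finset.sum_le_sum fun A hA => ?_
            exact (not_le.mp (Finset.mem_filter.mp hA).2).le
        _ ≤ ∑ A ∈ 𝓕, a := by
            refine Finset.sum_le_sum_of_subset_of_nonneg (Finset.filter_subset _ _) fun _ _ _ => ?_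
            positivity
        _ = _ := by rw [Finset.sum_const, nsmul_eq_mul, mul_comm]
    linarith
  have hcard : (0 : ℝ) ≤ (q : ℝ) ^ u * 𝓕.card := by positivity
  rw [ha] at hsplit
  nlinarith

end Pool.Agent.K1H6.HP
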