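import Pool.Agent.K1H6.HP.Big

/-!
# Pieces of helper42's project HP: the large `M` regime (`S_REGC`)
-/

set_option autoImplicit false

namespace Pool.Agent.K1H6.HP

open Module Finset
open Pool.Agent.K1H42.HP

section
variable {F V : Type} [Field F] [AddCommGroup V] [Module F V] [Finite V]

lemma finrank_sup_points {P Q : Submodule F V} (hP : finrank F P = 1) (hQ : finrank F Q = 1)
    (h : P ≠ Q) : finrank F (P ⊔ Q : Submodule F V) = 2 := by
  have h1 := Submodule.finrank_sup_add_finrank_inf_eq P Q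
  have h2 : P ⊓ Q = ⊥ := by
    by_contra hne
    have h3 : 0 < finrank F (P ⊓ Q : Submodule F V) := by
      rw [Nat.pos_iff_ne_zero]
      intro h0
      exact hne (Submodule.finrank_eq_zero.mp h0)
    have h4 : finrank F (P ⊓ Q : Submodule F V) ≤ finrank F P :=
      Submodule.finrank_mono inf_le_left
    have h5 : finrank F (P ⊓ Q : Submodule F V) ≤ finrank F Q :=
      Submodule.finrank_mono inf_le_right
    have h6 : P ⊓ Q = P := Submodule.eq_of_le_of_finrank_eq inf_le_left (by omega)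
    have h7 : P ⊓ Q = Q := Submodule.eq_of_le_of_finrank_eq inf_le_right (by omega)
    exact h (h6.symm.trans h7)
  rw [h2, finrank_bot, hP, hQ] at h1
  omega

/-- a nonzero subspace contains a point -/
lemma exists_point {W : Submodule F V} (h : W ≠ ⊥) :
    ∃ R : Submodule F V, finrank F R = 1 ∧ R ≤ W := by
  obtain ⟨x, hx, hx0⟩ := Submodule.exists_mem_ne_zero_of_ne_bot h
  exact ⟨F ∙ x, finrank_span_singleton hx0, by rwa [Submodule.span_singleton_le_iff_mem]⟩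

end

theorem t_REGC (hP : S_PTS) (hN : S_NUM) (hT : S_TUP) : S_REGC := by
  intro F _ _ V _ _ _ q n k M hq hn hnk hM hkM hk 𝓕 h𝓕 hint
  classical
  have hq2 : 2 ≤ q := by rw [← hq]; exact Fintype.one_lt_card
  have hqR : (2 : ℝ) ≤ q := by exact_mod_cast hq2
  have hq0 : (0 : ℝ) < q := by linarith
  have hq1 : (1 : ℝ) ≤ q := by linarith
  have hkn : k < n := by omega
  obtain ⟨hDpos, -, hD3, -, -, -, -⟩ := hN q n k hq2 (by omega) hkn
  have hnk2 : n - k = k + M := by omega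
  by_contra hcon
  push Not at hcon
  obtain ⟨Q, hQ, Q', hQ', hne⟩ := Finset.one_lt_card.mp hcon
  rw [mem_exc] at hQ hQ'
  obtain ⟨⟨hQ1, hQd⟩, hQL⟩ := hQ
  obtain ⟨⟨hQ1', hQd'⟩, -⟩ := hQ'
  have hD2 := hDpos 2
  have hdQ : 0 < dg 𝓕 Q := hD2.trans hQd
  -- the heavy lines
  have h23 := hD3 2 3 (by norm_num) (by omega)
  rw [hnk2] at h23
  norm_num at h23
  have hbrk : br q k ≤ (q : ℝ) ^ k := br_pow_le hN hq2 k
  have hD3p := hDpos 3
  have hline : ∀ R : Submodule F V, finrank F R = 1 → R ≠ Q →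
      dg 𝓕 (Q ⊔ R) ≤ D q n k 2 / (q : ℝ) ^ M := by
    intro R hR hRQ
    have h1 := hQL (Q ⊔ R) (finrank_sup_points hQ1 hR (Ne.symm hRQ)) le_sup_left
    rw [le_div_iff₀ (by positivity)]
    calc dg 𝓕 (Q ⊔ R) * (q : ℝ) ^ M ≤ (br q k * D q n k 3) * (q : ℝ) ^ M := by gcongr
      _ ≤ ((q : ℝ) ^ k * D q n k 3) * (q : ℝ) ^ M := by gcongr
      _ = (q : ℝ) ^ (k + M) * D q n k 3 := by rw [pow_add]; ring
      _ ≤ _ := h23
  set m : ℝ := 1 / (q : ℝ) ^ M with hm
  set v : Submodule F V → ℝ := fun R => if finrank F R = 1 ∧ R ≠ Q then dg 𝓕 (Q ⊔ R) / dg 𝓕 Q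
    else 0 with hv
  have hdnn : ∀ W : Submodule F V, 0 ≤ dg 𝓕 W := fun W => by unfold dg; positivity
  have hv0 : ∀ R, 0 ≤ v R := by
    intro R; simp only [hv]; split_ifs
    · exact div_nonneg (hdnn _) (hdnn _)
    · exact le_rfl
  have hm0 : 0 < m := by rw [hm]; positivity
  have hvm : ∀ R, v R ≤ m := by
    intro R; simp only [hv]; split_ifs with h
    · rw [div_le_iff₀ hdQ, hm]
      calc dg 𝓕 (Q ⊔ R) ≤ D q n k 2 / (q : ℝ) ^ M := hline R h.1 h.2
        _ = 1 / (q : ℝ) ^ M * D q n k 2 := by ring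
        _ ≤ _ := by gcongr
    · exact hm0.le
  -- the sum of v
  have hvsum : ∑ R ∈ Gr F V 1, v R ≤ (q : ℝ) ^ k := by
    have h1 : ∑ R ∈ Gr F V 1, v R ≤ ∑ R ∈ Gr F V 1, dg (above 𝓕 Q) R / dg 𝓕 Q := by
      refine Finset.sum_le_sum fun R _ => ?_
      simp only [hv]
      split_ifs
      · have : dg 𝓕 (Q ⊔ R) ≤ dg (above 𝓕 Q) R := by
          unfold dg
          have : above 𝓕 (Q ⊔ R) ⊆ above (above 𝓕 Q) R := by
            intro B hB
            rw [mem_above] at hB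
            rw [mem_above, mem_above]
            exact ⟨⟨hB.1, le_sup_left.trans hB.2⟩, le_sup_right.trans hB.2⟩
          exact_mod_cast Finset.card_le_card this
        gcongr
      · exact div_nonneg (by unfold dg; positivity) hdQ.le
    refine h1.trans ?_
    rw [← Finset.sum_div, div_le_iff₀ hdQ]
    have h2 := dcount (above 𝓕 Q) (fun _ => (1 : ℝ))
    simp only [one_mul] at h2
    rw [← h2]
    calc ∑ A ∈ above 𝓕 Q, ∑ P ∈ pts A, (1 : ℝ) ≤ ∑ A ∈ above 𝓕 Q, (q : ℝ) ^ k := by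
          refine Finset.sum_le_sum fun A hA => ?_
          rw [Finset.sum_const, nsmul_eq_mul, mul_one, hP F V q hq A]
          have : finrank F A = k := mem_Gr.mp (h𝓕 (mem_above.mp hA).1)
          rw [this]; exact hbrk
      _ = _ := by rw [Finset.sum_const, nsmul_eq_mul, mul_comm]; rfl
  have hvnn : 0 ≤ ∑ R ∈ Gr F V 1, v R := Finset.sum_nonneg fun R _ => hv0 R
  -- members avoiding Q
  have hA1 : ∀ A ∈ avoid 𝓕 Q, (1 : ℝ) ≤ ∑ R ∈ pts A, v R := by
    intro A hA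
    rw [mem_avoid] at hA
    have h1 : ∀ R ∈ pts A, v R = dg (above 𝓕 Q) R / dg 𝓕 Q := by
      intro R hR
      rw [mem_pts] at hR
      have hRQ : R ≠ Q := by rintro rfl; exact hA.2 hR.2
      simp only [hv]
      rw [if_pos ⟨hR.1, hRQ⟩]
      congr 1
      unfold dg
      congr 2
      ext B
      rw [mem_above, mem_above, mem_above, sup_le_iff]
      tauto
    rw [Finset.sum_congr rfl h1, ← Finset.sum_div, le_div_iff₀ hdQ, one_mul]
    -- each B through Q meets A in a point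
    have h2 : ∑ R ∈ pts A, dg (above 𝓕 Q) R =
        ∑ B ∈ above 𝓕 Q, (((pts A).filter (fun R => R ≤ B)).card : ℝ) := by
      have h3 : ∀ R : Submodule F V, dg (above 𝓕 Q) R =
          ∑ B ∈ above 𝓕 Q, if R ≤ B then (1 : ℝ) else 0 := by
        intro R
        rw [Finset.sum_ite, Finset.sum_const_zero, add_zero, Finset.sum_const, nsmul_eq_mul,
          mul_one]
        rfl
      simp only [h3]
      rw [Finset.sum_comm]
      refine Finset.sum_congr rfl fun B _ => ?_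
      rw [Finset.sum_ite, Finset.sum_const_zero, add_zero, Finset.sum_const, nsmul_eq_mul, mul_one]
    rw [h2]
    calc dg 𝓕 Q = ∑ B ∈ above 𝓕 Q, (1 : ℝ) := by
          rw [Finset.sum_const, nsmul_eq_mul, mul_one]; rfl
      _ ≤ _ := by
          refine Finset.sum_le_sum fun B hB => ?_
          rw [mem_above] at hB
          obtain ⟨R, hR1, hR2⟩ := exists_point (hint A hA.1 B hB.1)
          have : 0 < ((pts A).filter (fun R => R ≤ B)).card := by
            apply Finset.card_pos.mpr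
            refine ⟨R, Finset.mem_filter.mpr ⟨mem_pts.mpr ⟨hR1, hR2.trans inf_le_left⟩,
              hR2.trans inf_le_right⟩⟩
          exact_mod_cast this
  have hbr : 2 * br q 10 * m ≤ 1 := by
    have h1 := br_pow_le hN hq2 10
    rw [hm, mul_one_div, div_le_one (by positivity)]
    calc 2 * br q 10 ≤ 2 * (q : ℝ) ^ 10 := by gcongr
      _ ≤ q * (q : ℝ) ^ 10 := by gcongr
      _ = (q : ℝ) ^ 11 := by ring
      _ ≤ _ := pow_le_pow_right₀ hq1 hM
  have htup := hT F V q n k 10 v m 1 hq hn hkn.le (by omega) hv0 hvm one_pos hbr (avoid 𝓕 Q)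
    ((Finset.filter_subset _ _).trans h𝓕) hA1
  have h211 := hD3 2 11 (by norm_num) (by omega)
  rw [hnk2] at h211
  have hD11 := hDpos 11
  have havoid : ((avoid 𝓕 Q).card : ℝ) ≤ D q n k 2 / 4 := by
    set S := ((avoid 𝓕 Q).card : ℝ) with hS
    have e0 : S ≤ ∑ A ∈ avoid 𝓕 Q, ∑ P ∈ pts A, v P := by
      calc S = ∑ A ∈ avoid 𝓕 Q, (1 : ℝ) := by rw [Finset.sum_const, nsmul_eq_mul, mul_one]
        _ ≤ _ := Finset.sum_le_sum hA1
    have e1 : (1 / 2 : ℝ) ^ 10 * S ≤ ((q : ℝ) ^ k) ^ 11 * D q n k 11 := by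
      calc (1 / 2 : ℝ) ^ 10 * S ≤ (1 / 2 : ℝ) ^ 10 * ∑ A ∈ avoid 𝓕 Q, ∑ P ∈ pts A, v P :=
            mul_le_mul_of_nonneg_left e0 (by norm_num)
        _ ≤ (∑ P ∈ Gr F V 1, v P) ^ (10 + 1) * D q n k (10 + 1) := htup
        _ ≤ ((q : ℝ) ^ k) ^ (10 + 1) * D q n k (10 + 1) :=
            mul_le_mul_of_nonneg_right (pow_le_pow_left₀ hvnn hvsum 11) hD11.le
    have e2 : (1 / 2 : ℝ) ^ 10 * S * (q : ℝ) ^ (9 * (k + M)) ≤
        (q : ℝ) ^ (11 * k) * D q n k 2 := by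
      calc (1 / 2 : ℝ) ^ 10 * S * (q : ℝ) ^ (9 * (k + M))
          ≤ (((q : ℝ) ^ k) ^ 11 * D q n k 11) * (q : ℝ) ^ (9 * (k + M)) := by gcongr
        _ = (q : ℝ) ^ (11 * k) * ((q : ℝ) ^ ((11 - 2) * (k + M)) * D q n k 11) := by
            rw [← pow_mul, mul_comm k 11]; norm_num; ring
        _ ≤ _ := by gcongr
    have e3 : (2 : ℝ) ^ 12 * (q : ℝ) ^ (11 * k) ≤ (q : ℝ) ^ (9 * (k + M)) := by
      calc (2 : ℝ) ^ 12 * (q : ℝ) ^ (11 * k) ≤ (q : ℝ) ^ 12 * (q : ℝ) ^ (11 * k) := by gcongr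
        _ = (q : ℝ) ^ (12 + 11 * k) := by rw [pow_add]
        _ ≤ _ := pow_le_pow_right₀ hq1 (by omega)
    have e4 : (0 : ℝ) < (q : ℝ) ^ (11 * k) := by positivity
    have e5 : (q : ℝ) ^ (11 * k) * (S * 4) ≤ (q : ℝ) ^ (11 * k) * D q n k 2 := by
      have hS0 : 0 ≤ S := by positivity
      calc (q : ℝ) ^ (11 * k) * (S * 4)
          = (1 / 2 : ℝ) ^ 10 * S * ((2 : ℝ) ^ 12 * (q : ℝ) ^ (11 * k)) := by ring
        _ ≤ (1 / 2 : ℝ) ^ 10 * S * (q : ℝ) ^ (9 * (k + M)) := by gcongr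
        _ ≤ _ := e2
    have := le_of_mul_le_mul_left e5 e4
    linarith
  have hfin : dg 𝓕 Q' ≤ dg 𝓕 (Q ⊔ Q') + ((avoid 𝓕 Q).card : ℝ) := by
    unfold dg
    have : above 𝓕 Q' ⊆ above 𝓕 (Q ⊔ Q') ∪ avoid 𝓕 Q := by
      intro B hB
      rw [mem_above] at hB
      rw [Finset.mem_union, mem_above, mem_avoid]
      by_cases h : Q ≤ B
      · left; exact ⟨hB.1, sup_le h hB.2⟩
      · right; exact ⟨hB.1, h⟩
    exact_mod_cast (Finset.card_le_card this).trans (Finset.card_union_le _ _)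
  have hl := hline Q' hQ1' (Ne.symm hne)
  have h2M : (2 : ℝ) ≤ (q : ℝ) ^ M := by
    calc (2 : ℝ) ≤ q := hqR
      _ = (q : ℝ) ^ 1 := (pow_one _).symm
      _ ≤ _ := pow_le_pow_right₀ hq1 (by omega)
  have hl2 : D q n k 2 / (q : ℝ) ^ M ≤ D q n k 2 / 2 := by gcongr
  linarith

end Pool.Agent.K1H6.HP
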